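import Pool.Agent.W295.PR.Stm

/-!
Project PR (helper295), part TRA2: reduction to `G' = G0 ⟨g⟩`.
-/

set_option autoImplicit false

open Topology
open scoped Pointwise

namespace Pool.Agent.W63.PR.TRA2

open Pool.Agent.W295.PR

section iota

variable {G : Type} [Group G] [TopologicalSpace G] [IsTopologicalGroup G]

/-- the map induced by the inclusion of a subgroup -/
def iota (Γ G' : Subgroup G) : (G' ⧸ Γ.subgroupOf G') → G ⧸ Γ :=
  Quotient.lift (fun x : G' => ((x : G) : G ⧸ Γ)) (by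
    intro x y hxy
    have h1 : x⁻¹ * y ∈ Γ.subgroupOf G' := QuotientGroup.leftRel_apply.mp hxy
    rw [QuotientGroup.eq]
    exact Subgroup.mem_subgroupOf.mp h1)

theorem iota_mk (Γ G' : Subgroup G) (x : G') :
    iota Γ G' (x : G' ⧸ Γ.subgroupOf G') = ((x : G) : G ⧸ Γ) := rfl

theorem iota_cont (Γ G' : Subgroup G) : Continuous (iota Γ G') :=
  Continuous.quotient_lift (QuotientGroup.continuous_mk.comp continuous_subtype_val) _

theorem iota_inj (Γ G' : Subgroup G) : Function.Injective (iota Γ G') := by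
  intro x y
  induction x using QuotientGroup.induction_on with
  | H x =>
    induction y using QuotientGroup.induction_on with
    | H y =>
      intro h
      rw [iota_mk, iota_mk, QuotientGroup.eq] at h
      rw [QuotientGroup.eq]
      exact Subgroup.mem_subgroupOf.mpr h

theorem iota_smul (Γ G' : Subgroup G) (h : G') (x : G' ⧸ Γ.subgroupOf G') :
    iota Γ G' (h • x) = (h : G) • iota Γ G' x := by
  induction x using QuotientGroup.induction_on with
  | H x => rfl

theorem iota_open (Γ G' : Subgroup G) (hG' : IsOpen (G' : Set G)) : IsOpenMap (iota Γ G') := by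
  intro V hV
  have h1 : iota Γ G' '' V = (fun x : G => (x : G ⧸ Γ)) '' ((fun x : G' => (x : G)) ''
      ((fun x : G' => (x : G' ⧸ Γ.subgroupOf G')) ⁻¹' V)) := by
    ext z
    constructor
    · rintro ⟨v, hv, rfl⟩
      induction v using QuotientGroup.induction_on with
      | H x => exact ⟨(x : G), ⟨x, hv, rfl⟩, rfl⟩
    · rintro ⟨_, ⟨x, hx, rfl⟩, rfl⟩
      exact ⟨(x : G' ⧸ Γ.subgroupOf G'), hx, rfl⟩
  rw [h1]
  have h2 : IsOpen ((fun x : G' => (x : G' ⧸ Γ.subgroupOf G')) ⁻¹' V) :=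
    hV.preimage QuotientGroup.continuous_mk
  have h3 : IsOpenMap (fun x : G' => (x : G)) := hG'.isOpenMap_subtype_val
  exact QuotientGroup.isOpenMap_coe _ (h3 _ h2)

theorem iota_surj (Γ G' : Subgroup G) (h : ∀ x : G, ∃ u ∈ G', ∃ γ ∈ Γ, x = u * γ) :
    Function.Surjective (iota Γ G') := by
  intro z
  induction z using QuotientGroup.induction_on with
  | H x =>
    obtain ⟨u, hu, γ, hγ, rfl⟩ := h x
    refine ⟨((⟨u, hu⟩ : G') : G' ⧸ Γ.subgroupOf G'), ?_⟩
    rw [iota_mk, QuotientGroup.eq]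
    simpa using hγ

end iota

theorem main : S_TRA2 := by
  intro hMAIN hTRA1 G _ _ _ _ _ _ Γ hΓ hcpt g hmin D k j hk F U hU hUne
  have htr := hTRA1 G Γ hcpt g hmin
  set Gc : Subgroup G := Subgroup.connectedComponentOfOne G with hGc
  have hGcmem : ∀ x : G, x ∈ Gc ↔ x ∈ connectedComponent (1 : G) := fun x => Iff.rfl
  have hGcopen : IsOpen (Gc : Set G) := isOpen_connectedComponent
  have hGcn : Gc.Normal := by
    constructor
    intro n hn x
    rw [hGcmem] at hn ⊢
    have hc : Continuous (fun y : G => x * y * x⁻¹) := by fun_prop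
    have h1 := hc.image_connectedComponent_subset 1
    have h2 : x * n * x⁻¹ ∈ connectedComponent (x * 1 * x⁻¹) := h1 ⟨n, hn, rfl⟩
    rwa [mul_one, mul_inv_cancel] at h2
  set G' : Subgroup G := Gc ⊔ Subgroup.zpowers g with hG'
  have hle : Gc ≤ G' := le_sup_left
  have hgG' : g ∈ G' := (le_sup_right : Subgroup.zpowers g ≤ G') (Subgroup.mem_zpowers g)
  have hG'open : IsOpen (G' : Set G) := Subgroup.isOpen_mono hle hGcopen
  have hgen : ∀ x ∈ G', ∃ i : ℤ, ∃ u ∈ Gc, x = u * g ^ i := by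
    intro x hx
    have h1 : x ∈ (Gc : Set G) * (Subgroup.zpowers g : Set G) := by
      rw [← Subgroup.normal_mul]
      exact hx
    obtain ⟨u, hu, z, hz, rfl⟩ := Set.mem_mul.mp h1
    obtain ⟨i, rfl⟩ := Subgroup.mem_zpowers_iff.mp hz
    exact ⟨i, u, hu, rfl⟩
  have htr' : ∀ x : G, ∃ u ∈ G', ∃ γ ∈ Γ, x = u * γ := by
    intro x
    obtain ⟨u, hu, γ, hγ, h⟩ := htr x
    exact ⟨u, hle hu, γ, hγ, h⟩
  have hinj := iota_inj Γ G'
  have hsurj := iota_surj Γ G' htr'
  have hopen := iota_open Γ G' hG'open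
  have hcont := iota_cont Γ G'
  let e : (G' ⧸ Γ.subgroupOf G') ≃ₜ (G ⧸ Γ) :=
    (Equiv.ofBijective (iota Γ G') ⟨hinj, hsurj⟩).toHomeomorphOfContinuousOpen hcont hopen
  obtain ⟨u0, hu0, γ0, hγ0, hg0⟩ := htr g
  have hdense : ∀ x : G' ⧸ Γ.subgroupOf G',
      Dense (Set.range fun n : ℤ => (⟨g, hgG'⟩ : G') ^ n • x) := by
    intro x
    rw [dense_iff_inter_open]
    rintro V hV ⟨v, hv⟩
    have h1 := (hmin 1 one_pos (iota Γ G' x)).inter_open_nonempty (iota Γ G' '' V)
      (hopen V hV) ⟨iota Γ G' v, v, hv, rfl⟩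
    obtain ⟨z, ⟨w, hw, hwz⟩, n, hn⟩ := h1
    refine ⟨w, hw, n, ?_⟩
    apply hinj
    show iota Γ G' ((⟨g, hgG'⟩ : G') ^ n • x) = iota Γ G' w
    rw [hwz, iota_smul, ← hn]
    simp
  let N : Nil G' :=
    { a := ⟨g, hgG'⟩
      g0 := ⟨u0, hle hu0⟩
      G0 := Gc.subgroupOf G'
      Γ := Γ.subgroupOf G'
      nil := inferInstance
      t2 := inferInstance
      normal := inferInstance
      isOpen := hGcopen.preimage continuous_subtype_val
      conn := by
        have hi : IsInducing (fun x : G' => (x : G)) := IsInducing.subtypeVal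
        rw [← hi.isPreconnected_image]
        have h1 : (fun x : G' => (x : G)) '' (Gc.subgroupOf G' : Set G') = (Gc : Set G) := by
          ext x
          constructor
          · rintro ⟨y, hy, rfl⟩
            exact hy
          · intro hx
            exact ⟨⟨x, hle hx⟩, hx, rfl⟩
        rw [h1]
        exact isPreconnected_connectedComponent
      gen := by
        rintro ⟨x, hx⟩
        obtain ⟨i, u, hu, h⟩ := hgen x hx
        refine ⟨i, ⟨u, hle hu⟩, hu, ?_⟩
        apply Subtype.ext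
        simpa using h
      closed := hΓ.preimage continuous_subtype_val
      compact := e.symm.compactSpace
      trans := by
        rintro ⟨x, hx⟩
        obtain ⟨u, hu, γ, hγ, h⟩ := htr x
        have hγG : γ ∈ G' := by
          have : γ = u⁻¹ * x := by rw [h]; group
          rw [this]
          exact G'.mul_mem (G'.inv_mem (hle hu)) hx
        refine ⟨⟨u, hle hu⟩, hu, ⟨γ, hγG⟩, hγ, ?_⟩
        apply Subtype.ext
        simpa using h
      g0_mem := hu0
      gam_mem := by
        show u0⁻¹ * g ∈ Γ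
        rw [hg0]
        simpa using hγ0
      dense := hdense }
  obtain ⟨z, hz⟩ := hUne
  obtain ⟨z', rfl⟩ := hsurj z
  obtain ⟨n, hn, x, hx, hq⟩ := hMAIN G' N D k j hk F (iota Γ G' ⁻¹' U) (hU.preimage hcont)
    ⟨z', hz⟩
  refine ⟨n, hn, iota Γ G' x, hx, fun q hqF => ?_⟩
  have h := hq q hqF
  have h2 : iota Γ G' ((⟨g, hgG'⟩ : G') ^ (ev D ((k : ℤ) * (n : ℤ) + (j : ℤ)) q) • x) ∈ U := h
  rw [iota_smul] at h2
  simpa using h2

end Pool.Agent.W63.PR.TRA2
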